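import Mathlib

/-! Matrices over rings of characteristic `p`, entrywise Frobenius, integrality. -/

set_option linter.unusedSectionVars false

namespace Pool.Agent.H47.Hilb

open Matrix

variable (p : ℕ) [Fact p.Prime]

/-- the `p`-power ring endomorphism of an `F_p`-algebra -/
noncomputable def frp (R : Type*) [CommRing R] [Algebra (ZMod p) R] : R →+* R :=
  (FiniteField.frobeniusAlgHom (ZMod p) R : R →+* R)

@[simp] lemma frp_apply {R : Type*} [CommRing R] [Algebra (ZMod p) R] (x : R) :
    frp p R x = x ^ p := by
  simp [frp, ZMod.card]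

section
variable {n : Type*} [Fintype n] [DecidableEq n]

/-- a matrix over `F_p` seen over an `F_p`-algebra -/
noncomputable abbrev zm (R : Type*) [CommRing R] [Algebra (ZMod p) R]
    (M : Matrix n n (ZMod p)) : Matrix n n R :=
  M.map (algebraMap (ZMod p) R)

/-- entrywise Frobenius -/
noncomputable abbrev Fr {R : Type*} [CommRing R] [Algebra (ZMod p) R]
    (X : Matrix n n R) : Matrix n n R := X.map (frp p R)

variable {R R' : Type*} [CommRing R] [Algebra (ZMod p) R] [CommRing R'] [Algebra (ZMod p) R']

lemma Fr_mul (X Y : Matrix n n R) : Fr p (X * Y) = Fr p X * Fr p Y := Matrix.map_mul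

lemma Fr_map (f : R →+* R') (X : Matrix n n R) : Fr p (X.map f) = (Fr p X).map f := by
  ext i j; simp

lemma algebraMap_comp (f : R →+* R') (z : ZMod p) :
    f (algebraMap (ZMod p) R z) = algebraMap (ZMod p) R' z := by
  have : f.comp (algebraMap (ZMod p) R) = algebraMap (ZMod p) R' := Subsingleton.elim _ _
  exact congrArg (fun g => g z) this

lemma zm_map (f : R →+* R') (M : Matrix n n (ZMod p)) : (zm p R M).map f = zm p R' M := by
  ext i j; simp [algebraMap_comp]

lemma Fr_zm (M : Matrix n n (ZMod p)) : Fr p (zm p R M) = zm p R M := by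
  ext i j
  simp only [map_apply, frp_apply]
  rw [← map_pow, ZMod.pow_card]

lemma zm_mul (M N : Matrix n n (ZMod p)) : zm p R (M * N) = zm p R M * zm p R N :=
  Matrix.map_mul

lemma zm_one : zm p R (1 : Matrix n n (ZMod p)) = 1 := by
  simp [zm]

lemma det_Fr (X : Matrix n n R) : (Fr p X).det = X.det ^ p := by
  have := (RingHom.map_det (frp p R) X).symm
  simpa [RingHom.mapMatrix_apply] using this

lemma zm_inj [Nontrivial R] {M N : Matrix n n (ZMod p)} (h : zm p R M = zm p R N) : M = N := by
  ext i j
  have := congrFun (congrFun h i) j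
  exact (algebraMap (ZMod p) R).injective this

lemma zm_inv_mul (u : (Matrix n n (ZMod p))ˣ) :
    zm p R (↑u⁻¹ : Matrix n n (ZMod p)) * zm p R (u : Matrix n n (ZMod p)) = 1 := by
  rw [← zm_mul, Units.inv_mul, zm_one]

lemma zm_mul_inv (u : (Matrix n n (ZMod p))ˣ) :
    zm p R (u : Matrix n n (ZMod p)) * zm p R (↑u⁻¹ : Matrix n n (ZMod p)) = 1 := by
  rw [← zm_mul, Units.mul_inv, zm_one]

/-- Frobenius-fixed elements of a field are in the prime field. -/
lemma exists_of_pow_eq {E : Type*} [Field E] [Algebra (ZMod p) E] {x : E} (hx : x ^ p = x) :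
    ∃ z : ZMod p, algebraMap (ZMod p) E z = x := by
  have : CharP E p := charP_of_injective_algebraMap (algebraMap (ZMod p) E).injective p
  have h := (Subfield.mem_bot_iff_pow_eq_self E p).2 hx
  have h2 : x ∈ (algebraMap (ZMod p) E).fieldRange := (bot_le : (⊥ : Subfield E) ≤ _) h
  obtain ⟨z, hz⟩ := h2
  exact ⟨z, hz⟩

lemma exists_zm_of_Fr_eq {E : Type*} [Field E] [Algebra (ZMod p) E] {Z : Matrix n n E}
    (hZ : Fr p Z = Z) : ∃ g : Matrix n n (ZMod p), zm p E g = Z := by
  have h : ∀ i j, ∃ z : ZMod p, algebraMap (ZMod p) E z = Z i j := by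
    intro i j
    apply exists_of_pow_eq
    have := congrFun (congrFun hZ i) j
    simpa using this
  choose g hg using h
  exact ⟨Matrix.of g, by ext i j; simp [hg]⟩

end

/-! ### Integrality -/

section integral

variable {p}
variable {S₀ S₁ : Type*} [CommRing S₀] [CommRing S₁] [Algebra S₀ S₁]
variable {n : Type*} [Fintype n] [DecidableEq n]

lemma monomial_mem (hp : 1 < p) (v : n → S₁) (W : Matrix n n S₀)
    (hv : ∀ j, v j ^ p = ∑ l, algebraMap S₀ S₁ (W l j) * v l)
    (M : Submodule S₀ S₁) (hM : ∀ e : n → ℕ, (∀ i, e i < p) → ∏ i, v i ^ e i ∈ M) :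
    ∀ (d : ℕ) (e : n → ℕ), ∑ i, e i = d → ∏ i, v i ^ e i ∈ M := by
  intro d
  induction d using Nat.strong_induction_on with
  | _ d ih =>
    intro e he
    by_cases h : ∀ i, e i < p
    · exact hM e h
    · push Not at h
      obtain ⟨j, hj⟩ := h
      set e' : n → ℕ := Function.update e j (e j - p) with he'
      have h1 : ∏ i, v i ^ e i = v j ^ p * ∏ i, v i ^ e' i := by
        rw [← Finset.mul_prod_erase _ _ (Finset.mem_univ j),
          ← Finset.mul_prod_erase Finset.univ (fun i => v i ^ e' i) (Finset.mem_univ j), ← mul_assoc]
        congr 1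
        · simp only [he', Function.update_self]
          rw [← pow_add]; congr 1; omega
        · apply Finset.prod_congr rfl
          intro i hi
          have : i ≠ j := Finset.ne_of_mem_erase hi
          simp [he', Function.update_of_ne this]
      have hsum : ∑ i, e' i + p = d := by
        rw [← he, ← Finset.add_sum_erase _ _ (Finset.mem_univ j),
          ← Finset.add_sum_erase Finset.univ e (Finset.mem_univ j)]
        have : ∑ i ∈ Finset.univ.erase j, e' i = ∑ i ∈ Finset.univ.erase j, e i := by
          apply Finset.sum_congr rfl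
          intro i hi
          have : i ≠ j := Finset.ne_of_mem_erase hi
          simp [he', Function.update_of_ne this]
        rw [this]
        have h3 : e' j = e j - p := by simp [he']
        rw [h3]; omega
      rw [h1, hv j, Finset.sum_mul]
      apply Submodule.sum_mem
      intro l _
      rw [mul_assoc, ← Algebra.smul_def]
      apply Submodule.smul_mem
      have h4 : v l * ∏ i, v i ^ e' i = ∏ i, v i ^ (Function.update e' l (e' l + 1)) i := by
        rw [← Finset.mul_prod_erase _ _ (Finset.mem_univ l),
          ← Finset.mul_prod_erase Finset.univ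
            (fun i => v i ^ (Function.update e' l (e' l + 1)) i) (Finset.mem_univ l), ← mul_assoc]
        congr 1
        · simp only [Function.update_self]
          rw [pow_succ']
        · apply Finset.prod_congr rfl
          intro i hi
          have : i ≠ l := Finset.ne_of_mem_erase hi
          simp [Function.update_of_ne this]
      rw [h4]
      refine ih (∑ i, e' i + 1) (by omega) _ ?_
      rw [← Finset.add_sum_erase _ _ (Finset.mem_univ l),
        ← Finset.add_sum_erase Finset.univ e' (Finset.mem_univ l)]
      have : ∑ i ∈ Finset.univ.erase l, (Function.update e' l (e' l + 1)) i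
          = ∑ i ∈ Finset.univ.erase l, e' i := by
        apply Finset.sum_congr rfl
        intro i hi
        have : i ≠ l := Finset.ne_of_mem_erase hi
        simp [Function.update_of_ne this]
      rw [this]
      simp only [Function.update_self]
      ring

/-- Solutions of a Frobenius system with coefficients in `S₀` are integral over `S₀`. -/
lemma integral_of_frob (hp : 1 < p) (v : n → S₁) (W : Matrix n n S₀)
    (hv : ∀ j, v j ^ p = ∑ l, algebraMap S₀ S₁ (W l j) * v l) (j : n) :
    IsIntegral S₀ (v j) := by
  set G : Set S₁ := Set.range (fun e : n → Fin p => ∏ i, v i ^ (e i : ℕ)) with hG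
  have hmono := monomial_mem hp v W hv (Submodule.span S₀ G) (by
    intro e he
    apply Submodule.subset_span
    exact ⟨fun i => ⟨e i, he i⟩, rfl⟩)
  have hfg : (Subalgebra.toSubmodule (Algebra.adjoin S₀ (Set.range v))).FG := by
    have : Subalgebra.toSubmodule (Algebra.adjoin S₀ (Set.range v)) = Submodule.span S₀ G := by
      apply le_antisymm
      · rw [Algebra.adjoin_eq_span, Submodule.span_le]
        intro z hz
        have : ∃ e : n → ℕ, z = ∏ i, v i ^ e i := by
          induction hz using Submonoid.closure_induction with
          | mem x hx =>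
            obtain ⟨l, rfl⟩ := hx
            refine ⟨Pi.single l 1, ?_⟩
            rw [Finset.prod_eq_single l]
            · simp
            · intro b _ hb; simp [Pi.single_eq_of_ne hb]
            · simp
          | one => exact ⟨0, by simp⟩
          | mul x y _ _ hx hy =>
            obtain ⟨e, rfl⟩ := hx
            obtain ⟨e', rfl⟩ := hy
            exact ⟨e + e', by simp [pow_add, Finset.prod_mul_distrib]⟩
        obtain ⟨e, rfl⟩ := this
        exact hmono _ e rfl
      · rw [Submodule.span_le]
        rintro _ ⟨e, rfl⟩
        simp only [SetLike.mem_coe, Subalgebra.mem_toSubmodule]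
        apply Subalgebra.prod_mem
        intro i _
        exact Subalgebra.pow_mem _ (Algebra.subset_adjoin (Set.mem_range_self i)) _
    rw [this]
    exact Submodule.fg_span (Set.finite_range _)
  exact IsIntegral.of_mem_of_fg _ hfg (v j) (Algebra.subset_adjoin (Set.mem_range_self j))

/-- matrix version -/
lemma integral_of_frob_matrix (hp : 1 < p) (x : Matrix n n S₁) (W : Matrix n n S₀)
    (hx : x.map (fun z => z ^ p) = x * W.map (algebraMap S₀ S₁)) (i j : n) :
    IsIntegral S₀ (x i j) := by
  apply integral_of_frob hp (fun j => x i j) W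
  intro j
  have := congrFun (congrFun hx i) j
  simp only [map_apply, mul_apply] at this
  rw [this]
  apply Finset.sum_congr rfl
  intro l _
  ring

end integral

end Pool.Agent.H47.Hilb
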