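import Pool.Agent.H47.Hilb.Basic

set_option linter.unusedSectionVars false

/-! Specialisation of finite separable extensions of `K(X)` over a Hilbertian field `K`. -/

namespace Pool.Agent.H47.Hilb

open Polynomial

/-- Hilbertian fields (one-parameter form used in the frozen statement). -/
def IsHilb (K : Type*) [Field K] : Prop :=
  ∀ (f : Polynomial (Polynomial K)), f.Monic → Irreducible f →
    (f.map (algebraMap (Polynomial K) (FractionRing (Polynomial K)))).Separable →
    ∀ g : Polynomial K, g ≠ 0 →
      ∃ a : K, g.eval a ≠ 0 ∧ Irreducible (f.map (Polynomial.evalRingHom a))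

lemma exists_denominator {R F Ω : Type*} [CommRing R] [IsDomain R] [Field F] [Field Ω]
    [Algebra R F] [IsFractionRing R F] [Algebra R Ω] [Algebra F Ω] [IsScalarTower R F Ω]
    (T : Set Ω) {z : Ω} (hz : z ∈ Algebra.adjoin F T) :
    ∃ d : R, d ≠ 0 ∧ algebraMap R Ω d * z ∈ Algebra.adjoin R T := by
  induction hz using Algebra.adjoin_induction with
  | mem x hx => exact ⟨1, one_ne_zero, by simpa using Algebra.subset_adjoin hx⟩
  | algebraMap r =>
    obtain ⟨a, b, hb, rfl⟩ := IsFractionRing.div_surjective (A := R) r
    have hb0 : b ≠ 0 := nonZeroDivisors.ne_zero hb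
    refine ⟨b, hb0, ?_⟩
    have h1 : algebraMap F Ω (algebraMap R F b) ≠ 0 := by
      rw [_root_.map_ne_zero]
      exact (map_ne_zero_iff _ (IsFractionRing.injective R F)).2 hb0
    have : algebraMap R Ω b * algebraMap F Ω (algebraMap R F a / algebraMap R F b)
        = algebraMap R Ω a := by
      rw [map_div₀, IsScalarTower.algebraMap_apply R F Ω, IsScalarTower.algebraMap_apply R F Ω a]
      field_simp
    rw [this]
    exact Subalgebra.algebraMap_mem _ _
  | add x y _ _ hx hy =>
    obtain ⟨d, hd, hdx⟩ := hx
    obtain ⟨e, he, hey⟩ := hy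
    refine ⟨d * e, mul_ne_zero hd he, ?_⟩
    have : algebraMap R Ω (d * e) * (x + y)
        = algebraMap R Ω e * (algebraMap R Ω d * x) + algebraMap R Ω d * (algebraMap R Ω e * y) := by
      rw [map_mul]; ring
    rw [this]
    exact add_mem (mul_mem (Subalgebra.algebraMap_mem _ _) hdx)
      (mul_mem (Subalgebra.algebraMap_mem _ _) hey)
  | mul x y _ _ hx hy =>
    obtain ⟨d, hd, hdx⟩ := hx
    obtain ⟨e, he, hey⟩ := hy
    refine ⟨d * e, mul_ne_zero hd he, ?_⟩
    have : algebraMap R Ω (d * e) * (x * y)
        = (algebraMap R Ω d * x) * (algebraMap R Ω e * y) := by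
      rw [map_mul]; ring
    rw [this]
    exact mul_mem hdx hey

theorem specialise {K : Type*} [Field K] (hK : IsHilb K) {Ω : Type*} [Field Ω]
    [Algebra K[X] Ω] [Algebra (FractionRing K[X]) Ω] [IsScalarTower K[X] (FractionRing K[X]) Ω]
    (T : Set Ω) (hTf : T.Finite) (hT : ∀ z ∈ T, IsIntegral K[X] z)
    (hsep : ∀ z ∈ T, IsSeparable (FractionRing K[X]) z) (g : K[X]) (hg : g ≠ 0) :
    ∃ a : K, g.eval a ≠ 0 ∧ ∃ (Q : Ideal (Algebra.adjoin K[X] T)), Q.IsMaximal ∧
      (∀ q : K[X], q.eval a = 0 → algebraMap K[X] (Algebra.adjoin K[X] T) q ∈ Q) ∧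
      ∃ θ : Algebra.adjoin K[X] T, ∃ f : K[X], f.Monic ∧ Irreducible f ∧
        f.natDegree = Module.finrank (FractionRing K[X])
          (IntermediateField.adjoin (FractionRing K[X]) T) ∧
        Polynomial.eval₂ ((Ideal.Quotient.mk Q).comp
          ((algebraMap K[X] (Algebra.adjoin K[X] T)).comp C)) (Ideal.Quotient.mk Q θ) f = 0 := by
  set F := FractionRing K[X] with hF
  set E := IntermediateField.adjoin F T with hE
  have hTF : ∀ z ∈ T, IsIntegral F z := fun z hz => (hT z hz).tower_top
  have : Finite T := hTf
  have hfd : FiniteDimensional F E := IntermediateField.finiteDimensional_adjoin hTF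
  have hsepE : Algebra.IsSeparable F E :=
    IntermediateField.isSeparable_adjoin_iff_isSeparable F Ω |>.2 hsep
  obtain ⟨α, hα⟩ := Field.exists_primitive_element F E
  have hαmem : (α : Ω) ∈ Algebra.adjoin F T := by
    have := IntermediateField.adjoin_toSubalgebra_of_isAlgebraic (F := F)
      (fun z hz => (hTF z hz).isAlgebraic)
    rw [← this]
    exact α.2
  obtain ⟨d, hd, hdα⟩ := exists_denominator (R := K[X]) T hαmem
  set B := Algebra.adjoin K[X] T with hB
  let θ : B := ⟨_, hdα⟩
  have hBint : Algebra.IsIntegral K[X] B := Algebra.IsIntegral.adjoin hT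
  have hθint : IsIntegral K[X] (θ : Ω) := by
    have := hBint.isIntegral θ
    exact this.map (IsScalarTower.toAlgHom K[X] B Ω)
  -- the minimal polynomial
  set f : K[X][X] := minpoly K[X] (θ : Ω) with hf
  have hfm : f.Monic := minpoly.monic hθint
  have hnz : algebraMap K[X] Ω d ≠ 0 := by
    rw [IsScalarTower.algebraMap_apply K[X] F Ω, _root_.map_ne_zero]
    exact (map_ne_zero_iff _ (IsFractionRing.injective K[X] F)).2 hd
  have hinj : Function.Injective (algebraMap K[X] Ω) := by
    rw [IsScalarTower.algebraMap_eq K[X] F Ω]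
    exact (algebraMap F Ω).injective.comp (IsFractionRing.injective K[X] F)
  have hirr : Irreducible f := by
    have : IsDomain K[X] := inferInstance
    exact minpoly.irreducible hθint
  have hmap : minpoly F (θ : Ω) = f.map (algebraMap K[X] F) :=
    minpoly.isIntegrallyClosed_eq_field_fractions' F hθint
  -- θ generates
  set θE : E := algebraMap F E (algebraMap K[X] F d) * α with hθE
  have hθEval : (θE : Ω) = (θ : Ω) := by
    simp only [hθE, MulMemClass.coe_mul]
    congr 1
    rw [IsScalarTower.algebraMap_apply K[X] F Ω]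
    rfl
  have hdF : algebraMap K[X] F d ≠ 0 :=
    (map_ne_zero_iff _ (IsFractionRing.injective K[X] F)).2 hd
  have htop : IntermediateField.adjoin F {θE} = ⊤ := by
    rw [eq_top_iff, ← hα, IntermediateField.adjoin_simple_le_iff]
    have h1 : α = algebraMap F E (algebraMap K[X] F d)⁻¹ * θE := by
      rw [hθE, ← mul_assoc, ← map_mul, inv_mul_cancel₀ hdF, map_one, one_mul]
    rw [h1]
    exact mul_mem (IntermediateField.algebraMap_mem _ _) (IntermediateField.mem_adjoin_simple_self F θE)
  have hdeg : f.natDegree = Module.finrank F E := by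
    have h1 : (minpoly F θE).natDegree = Module.finrank F E := by
      have h2 := IntermediateField.adjoin.finrank (K := F) (x := θE) (Algebra.IsIntegral.isIntegral θE)
      rw [htop, IntermediateField.finrank_top'] at h2
      exact h2.symm
    have h3 : minpoly F θE = minpoly F (θ : Ω) := by
      rw [← hθEval]
      exact (minpoly.algebraMap_eq (algebraMap E Ω).injective θE).symm
    rw [← h1, h3, hmap, hfm.natDegree_map]
  have hfsep : (f.map (algebraMap K[X] F)).Separable := by
    rw [← hmap, ← hθEval]
    have := Algebra.IsSeparable.isSeparable F θE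
    have h3 : minpoly F θE = minpoly F (θE : Ω) :=
      (minpoly.algebraMap_eq (algebraMap E Ω).injective θE).symm
    rw [← h3]
    exact this
  obtain ⟨a, hga, hirra⟩ := hK f hfm hirr hfsep g hg
  refine ⟨a, hga, ?_⟩
  set P : Ideal K[X] := RingHom.ker (evalRingHom a) with hP
  have hPmax : P.IsMaximal := by
    apply RingHom.ker_isMaximal_of_surjective
    intro c
    exact ⟨C c, by simp⟩
  have hinjB : Function.Injective (algebraMap K[X] B) := by
    intro u v huv
    apply hinj
    have := congrArg (fun z : B => (z : Ω)) huv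
    exact this
  obtain ⟨Q, hQmax, hQ⟩ := Ideal.exists_ideal_over_maximal_of_isIntegral (S := B) P (by
    rw [(RingHom.injective_iff_ker_eq_bot _).1 hinjB]
    exact bot_le)
  refine ⟨Q, hQmax, ?_, ?_⟩
  · intro q hq
    have : q ∈ Q.comap (algebraMap K[X] B) := by
      rw [hQ]; exact hq
    exact this
  · refine ⟨θ, f.map (evalRingHom a), hfm.map _, hirra, ?_, ?_⟩
    · rw [hfm.natDegree_map, hdeg]
    · rw [eval₂_map]
      have hcomp : ((Ideal.Quotient.mk Q).comp ((algebraMap K[X] B).comp C)).comp (evalRingHom a)
          = (Ideal.Quotient.mk Q).comp (algebraMap K[X] B) := by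
        ext q
        · simp
        · simp only [RingHom.coe_comp, Function.comp_apply, coe_evalRingHom, eval_X]
          rw [Ideal.Quotient.eq, ← map_sub]
          have : (C a - X : K[X]) ∈ Q.comap (algebraMap K[X] B) := by
            rw [hQ, hP, RingHom.mem_ker]; simp
          exact this
      rw [hcomp]
      have h0 : eval₂ (algebraMap K[X] B) θ f = 0 := by
        have h1 : aeval (θ : Ω) f = 0 := minpoly.aeval _ _
        apply Subtype.ext
        have h2 : ((eval₂ (algebraMap K[X] B) θ f : B) : Ω) = eval₂ (algebraMap K[X] Ω) (θ : Ω) f := by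
          have := Polynomial.hom_eval₂ f (algebraMap K[X] B) (algebraMap B Ω) θ
          exact this
        rw [h2]
        exact h1
      have := Polynomial.hom_eval₂ f (algebraMap K[X] B) (Ideal.Quotient.mk Q) θ
      rw [h0, map_zero] at this
      exact this.symm

end Pool.Agent.H47.Hilb
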